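import Pool.Agent.R972.SE.Path

/-!
# Asymptotics of the number of jumps
-/

set_option autoImplicit false

open MeasureTheory ProbabilityTheory Set Filter Topology
open scoped NNReal ENNReal

namespace Pool.Agent.R972.SE

lemma jump_mono (lam : ℝ → ℝ) (γ : ℝ) (E : ℕ → ℝ) : Monotone (jump lam γ E) := by
  refine monotone_nat_of_le_succ fun n => ?_
  rw [jump]
  exact le_iInf₂ fun t ht => ht.1

/-- if the `n`-th jump time is asymptotic to `n/3` then the number of jumps is asymptotic to `3t` -/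
lemma count_asym {lam : ℝ → ℝ} {γ : ℝ} {E : ℕ → ℝ} {a : ℕ → ℝ} {m : ℕ}
    (ha : ∀ n, m ≤ n → jump lam γ E n = ENNReal.ofReal (a n)) (ha0 : ∀ n, m ≤ n → 0 ≤ a n)
    (hlim : Tendsto (fun n : ℕ => a n / n) atTop (𝓝 (1 / 3))) :
    (∀ t : ℝ≥0, count lam γ E t ≠ ⊤) ∧
      Tendsto (fun t : ℝ≥0 => ((count lam γ E t).toNat : ℝ) / t) atTop (𝓝 3) := by
  classical
  have hmono := jump_mono lam γ E
  have hinf : Tendsto a atTop atTop := by
    have h1 : Tendsto (fun n : ℕ => (a n / n) * (n : ℝ)) atTop atTop :=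
      hlim.pos_mul_atTop (by norm_num) tendsto_natCast_atTop_atTop
    refine h1.congr' ?_
    filter_upwards [eventually_gt_atTop 0] with n hn
    have : (n : ℝ) ≠ 0 := by positivity
    field_simp
  have hex : ∀ t : ℝ≥0, ∃ j : ℕ, (t : ℝ≥0∞) < jump lam γ E (j + 1) := by
    intro t
    obtain ⟨n, hn1, hn2⟩ := ((hinf.eventually_gt_atTop (t : ℝ)).and
      (eventually_ge_atTop m)).exists
    refine ⟨n, ?_⟩
    refine lt_of_lt_of_le ?_ (hmono (Nat.le_succ n))
    rw [ha n hn2, ENNReal.lt_ofReal_iff_toReal_lt (by simp)]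
    simpa using hn1
  have hcount : ∀ t : ℝ≥0, count lam γ E t = ((Nat.find (hex t) : ℕ) : ℕ∞) := by
    intro t
    have h1 : {n : ℕ | jump lam γ E (n + 1) ≤ t} = ((Finset.range (Nat.find (hex t)) : Finset ℕ) :
        Set ℕ) := by
      ext n
      simp only [mem_ofPred_eq, Finset.coe_range, mem_Iio]
      constructor
      · intro h
        by_contra hlt
        push Not at hlt
        have h2 := hmono (Nat.succ_le_succ hlt)
        exact absurd (lt_of_lt_of_le (Nat.find_spec (hex t)) (h2.trans h)) (lt_irrefl _)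
      · intro h
        exact not_lt.1 (Nat.find_min (hex t) h)
    unfold count
    rw [h1, encard_coe_eq_coe_finsetCard, Finset.card_range]
  refine ⟨fun t => by rw [hcount]; exact ENat.natCast_ne_top _, ?_⟩
  have e1 : ∀ t : ℝ≥0, (((count lam γ E t).toNat : ℕ) : ℝ) = (Nat.find (hex t) : ℝ) := by
    intro t; rw [hcount]; simp
  simp only [e1]
  set N : ℝ≥0 → ℕ := fun t => Nat.find (hex t) with hN
  have hN1 : Tendsto N atTop atTop := by
    refine tendsto_atTop.2 fun b => ?_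
    have h2 : ∀ᶠ t : ℝ≥0 in atTop, ((a (max b m)).toNNReal) ≤ t := eventually_ge_atTop _
    filter_upwards [h2] with t ht
    by_contra hlt
    push Not at hlt
    have h3 : (t : ℝ≥0∞) < jump lam γ E (N t + 1) := Nat.find_spec (hex t)
    have h4 : jump lam γ E (N t + 1) ≤ jump lam γ E (max b m) :=
      hmono (by have := le_max_left b m; omega)
    rw [ha _ (le_max_right _ _)] at h4
    have h5 : (t : ℝ≥0∞) < ENNReal.ofReal (a (max b m)) := lt_of_lt_of_le h3 h4
    have h6 : t < (a (max b m)).toNNReal := by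
      rw [ENNReal.ofReal] at h5
      exact ENNReal.coe_lt_coe.1 h5
    exact absurd h6 (not_lt.2 ht)
  have hlow : ∀ᶠ t : ℝ≥0 in atTop, a (N t) / N t ≤ (t : ℝ) / N t := by
    filter_upwards [hN1.eventually_ge_atTop (m + 1)] with t ht
    have ht' : m + 1 ≤ N t := ht
    have h1 : jump lam γ E (N t) ≤ t := by
      have h2 := Nat.find_min (hex t) (show N t - 1 < Nat.find (hex t) by
        show N t - 1 < N t; omega)
      rw [Nat.sub_add_cancel (by omega)] at h2
      exact not_lt.1 h2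
    rw [ha _ (by omega)] at h1
    have h2 : a (N t) ≤ t := by
      have h3 := ENNReal.toReal_mono (by simp) h1
      rwa [ENNReal.toReal_ofReal (ha0 _ (by omega)), ENNReal.coe_toReal] at h3
    gcongr
  have hup : ∀ᶠ t : ℝ≥0 in atTop, (t : ℝ) / N t ≤ a (N t + 1) / N t := by
    filter_upwards [hN1.eventually_ge_atTop (m + 1)] with t ht
    have ht' : m + 1 ≤ N t := ht
    have h1 : (t : ℝ≥0∞) < jump lam γ E (N t + 1) := Nat.find_spec (hex t)
    rw [ha _ (by omega)] at h1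
    have h2 : (t : ℝ) ≤ a (N t + 1) := by
      have h3 := ENNReal.toReal_mono (by simp) h1.le
      rwa [ENNReal.toReal_ofReal (ha0 _ (by omega)), ENNReal.coe_toReal] at h3
    gcongr
  have hl1 : Tendsto (fun t : ℝ≥0 => a (N t) / N t) atTop (𝓝 (1 / 3)) := hlim.comp hN1
  have hl2 : Tendsto (fun t : ℝ≥0 => a (N t + 1) / N t) atTop (𝓝 (1 / 3)) := by
    have h1 : Tendsto (fun n : ℕ => a (n + 1) / ((n + 1 : ℕ) : ℝ) * (1 + 1 / (n : ℝ))) atTop
        (𝓝 (1 / 3 * (1 + 0))) := by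
      refine Tendsto.mul ((tendsto_add_atTop_iff_nat 1).2 hlim) ?_
      exact tendsto_const_nhds.add tendsto_one_div_atTop_nhds_zero_nat
    rw [add_zero, mul_one] at h1
    have h2 : Tendsto (fun n : ℕ => a (n + 1) / (n : ℝ)) atTop (𝓝 (1 / 3)) := by
      refine h1.congr' ?_
      filter_upwards [eventually_gt_atTop 0] with n hn
      have : (n : ℝ) ≠ 0 := by positivity
      push_cast
      field_simp
    exact h2.comp hN1
  have hl3 : Tendsto (fun t : ℝ≥0 => (t : ℝ) / N t) atTop (𝓝 (1 / 3)) :=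
    tendsto_of_tendsto_of_tendsto_of_le_of_le' hl1 hl2 hlow hup
  have hl4 := hl3.inv₀ (by norm_num)
  have h9 : ((1 / 3 : ℝ))⁻¹ = 3 := by norm_num
  rw [h9] at hl4
  refine hl4.congr fun t => ?_
  rw [inv_div]

/-- the good event -/
lemma good {γ : ℝ} (hγ0 : 0 ≤ γ)
    (hγ : ∀ (k : ℕ) (u : ℝ), 0 ≤ u → u ≤ 1 / 100 → 1 / 4 ≤ lam0 ((k + γ) / (u + 1)))
    {E : ℕ → ℝ} (hE : ∀ n, 0 < E n) {m : ℕ} {K : ℝ} (hm : 54 + 6 * K ≤ m) (hm0 : 0 < m)
    (hs : ∀ k < m, E k ≤ 1 / (400 * m))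
    (hK : ∀ n, ∑ k ∈ Finset.Ico m (m + n), E k ≤ 4 / 3 * ((m : ℝ) + n) + K)
    (hlim : Tendsto (fun n : ℕ => (∑ k ∈ Finset.range n, E k) / n) atTop (𝓝 1)) :
    (∀ t : ℝ≥0, count lam0 γ E t ≠ ⊤) ∧
      Tendsto (fun t : ℝ≥0 => ((count lam0 γ E t).toNat : ℝ) / t) atTop (𝓝 3) := by
  obtain ⟨τ, hτ0, hτ⟩ := late hγ0 hγ hE hm hm0 hs hK
  set S : ℕ → ℝ := fun n => ∑ k ∈ Finset.range n, E k with hS
  have hsum : ∀ n, m ≤ n → ∑ k ∈ Finset.Ico m n, E k = S n - S m := fun n hn =>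
    Finset.sum_Ico_eq_sub _ hn
  have hmonoS : ∀ n, m ≤ n → S m ≤ S n := fun n hn => by
    have := Finset.sum_nonneg fun k (_ : k ∈ Finset.Ico m n) => (hE k).le
    rw [hsum n hn] at this
    linarith
  refine count_asym (a := fun n => τ + (S n - S m) / 3) (m := m) ?_ ?_ ?_
  · intro n hn
    obtain ⟨j, rfl⟩ := Nat.exists_eq_add_of_le hn
    rw [hτ j, hsum _ hn]
  · intro n hn
    have := hmonoS n hn
    show 0 ≤ τ + (S n - S m) / 3
    linarith
  · have h1 : Tendsto (fun n : ℕ => (τ - S m / 3) * (1 / (n : ℝ)) + 1 / 3 * (S n / n)) atTop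
        (𝓝 ((τ - S m / 3) * 0 + 1 / 3 * 1)) :=
      (tendsto_one_div_atTop_nhds_zero_nat.const_mul _).add (hlim.const_mul _)
    rw [mul_zero, zero_add, mul_one] at h1
    refine h1.congr fun n => ?_
    ring

end Pool.Agent.R972.SE
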