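import Mathlib

/-!
# The self-exciting process with intensity `λ((N_{t-}+γ)/(t+1))`: definitions
-/

set_option autoImplicit false

open MeasureTheory ProbabilityTheory Set Filter Topology
open scoped NNReal ENNReal

namespace Pool.Agent.R972.SE

/-- The jump times `0 = T₀ ≤ T₁ ≤ T₂ ≤ …` (with values in `[0,∞]`) of the self-exciting process
driven by the sequence of clocks `E`: after the `n`-th jump the intensity at time `u` is
`λ((n+γ)/(u+1))`, and `T_{n+1}` is the first time at which the integral of the intensity since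
`T_n` reaches `E n` (`T_{n+1} = ∞` if this never happens, in particular if `T_n = ∞`). -/
noncomputable def jump (lam : ℝ → ℝ) (γ : ℝ) (E : ℕ → ℝ) : ℕ → ℝ≥0∞
  | 0 => 0
  | n + 1 => ⨅ (t : ℝ≥0) (_ : jump lam γ E n ≤ t ∧
      E n ≤ ∫ u in (jump lam γ E n).toReal..t, lam ((n + γ) / (u + 1))), (t : ℝ≥0∞)

/-- The number `N_t` of jumps in `(0,t]`. -/
noncomputable def count (lam : ℝ → ℝ) (γ : ℝ) (E : ℕ → ℝ) (t : ℝ≥0) : ℕ∞ :=
  {n : ℕ | jump lam γ E (n + 1) ≤ t}.encard

/-- The law of the clocks: independent exponential random variables with mean `1`. -/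
noncomputable def clockLaw : Measure (ℕ → ℝ) := Measure.infinitePi (fun _ : ℕ => expMeasure 1)

/-- `ℙ(N_t < ∞ for all t and N_t / t → x)` for the process with initial condition `γ`. -/
noncomputable def limProb (lam : ℝ → ℝ) (γ x : ℝ) : ℝ≥0∞ :=
  clockLaw {E | (∀ t : ℝ≥0, count lam γ E t ≠ ⊤) ∧
    Tendsto (fun t : ℝ≥0 => ((count lam γ E t).toNat : ℝ) / t) atTop (𝓝 x)}

/-- `x` is a stable fixed point of `lam`: `lam x = x`, `lam y > y` for `y` slightly below `x` and
`lam y < y` for `y` slightly above `x`. -/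
def IsStable (lam : ℝ → ℝ) (x : ℝ) : Prop :=
  lam x = x ∧ (∀ᶠ y in 𝓝[<] x, y < lam y) ∧ (∀ᶠ y in 𝓝[>] x, lam y < y)

end Pool.Agent.R972.SE
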