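import Mathlib

/-!
# Convergence in law in `[0,∞]^ℕ` from the convergence of the finite dimensional laws
-/

set_option autoImplicit false

open MeasureTheory Set Filter Topology
open scoped ENNReal

namespace Pool.Agent.R972.SE

instance : TopologicalSpace.MetrizableSpace (ℕ → ℝ≥0∞) := inferInstance
instance (k : ℕ) : TopologicalSpace.MetrizableSpace (Fin k → ℝ≥0∞) := inferInstance
instance : HasOuterApproxClosed (ℕ → ℝ≥0∞) := inferInstance
instance (k : ℕ) : HasOuterApproxClosed (Fin k → ℝ≥0∞) := inferInstance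
example : BorelSpace (ℕ → ℝ≥0∞) := inferInstance
example (μ : Measure (ℕ → ℝ≥0∞)) [IsFiniteMeasure μ] : μ.WeaklyRegular := inferInstance

/-- projection to the first `k` coordinates -/
def prj (k : ℕ) (y : ℕ → ℝ≥0∞) : Fin k → ℝ≥0∞ := fun i => y i

lemma prj_cont (k : ℕ) : Continuous (prj k) := by unfold prj; fun_prop

theorem tendsto_of_fd {μ : ProbabilityMeasure (ℕ → ℝ≥0∞)} {μs : ℕ → ProbabilityMeasure (ℕ → ℝ≥0∞)}
    (h : ∀ (k : ℕ) (g : BoundedContinuousFunction (Fin k → ℝ≥0∞) ℝ),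
      Tendsto (fun n => ∫ y, g (prj k y) ∂(μs n : Measure (ℕ → ℝ≥0∞))) atTop
        (𝓝 (∫ y, g (prj k y) ∂(μ : Measure (ℕ → ℝ≥0∞))))) :
    Tendsto μs atTop (𝓝 μ) := by
  have h1 : ∀ k, Tendsto (fun n => (μs n).map (prj_cont k).measurable.aemeasurable) atTop
      (𝓝 (μ.map (prj_cont k).measurable.aemeasurable)) := by
    intro k
    rw [ProbabilityMeasure.tendsto_iff_forall_integral_tendsto]
    intro g
    have e : ∀ ν : ProbabilityMeasure (ℕ → ℝ≥0∞),
        ∫ z, g z ∂((ν.map (prj_cont k).measurable.aemeasurable : ProbabilityMeasure _) : Measure _) =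
        ∫ y, g (prj k y) ∂(ν : Measure (ℕ → ℝ≥0∞)) := fun ν =>
      integral_map (prj_cont k).measurable.aemeasurable g.continuous.aestronglyMeasurable
    simp_rw [e]
    exact h k g
  refine tendsto_of_forall_isOpen_le_liminf' fun G hG => ?_
  let V : (k : ℕ) → Set (Fin k → ℝ≥0∞) := fun k => ⋃₀ {V | IsOpen V ∧ prj k ⁻¹' V ⊆ G}
  have hVo : ∀ k, IsOpen (V k) := fun k => isOpen_sUnion fun V hV => hV.1
  have hVG : ∀ k, prj k ⁻¹' V k ⊆ G := by
    rintro k y ⟨V, ⟨-, hV⟩, hy⟩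
    exact hV hy
  have hmono : Monotone fun k => prj k ⁻¹' V k := by
    intro k l hkl y hy
    obtain ⟨W, ⟨hWo, hW⟩, hyW⟩ := hy
    let r : (Fin l → ℝ≥0∞) → (Fin k → ℝ≥0∞) := fun z i => z (Fin.castLE hkl i)
    have hr : Continuous r := by fun_prop
    refine ⟨r ⁻¹' W, ⟨hWo.preimage hr, ?_⟩, hyW⟩
    intro y' hy'
    exact hW hy'
  have hU : (⋃ k, prj k ⁻¹' V k) = G := by
    apply subset_antisymm (iUnion_subset hVG)
    intro y hy
    obtain ⟨I, u, hu, hI⟩ := isOpen_pi_iff.1 hG y hy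
    obtain ⟨k, hk⟩ : ∃ k, ∀ i ∈ I, i < k := ⟨I.sup id + 1, fun i hi =>
      Nat.lt_succ_of_le (Finset.le_sup (f := id) hi)⟩
    refine mem_iUnion.2 ⟨k, ?_⟩
    refine ⟨{z | ∀ i : Fin k, (i : ℕ) ∈ I → z i ∈ u i}, ⟨?_, ?_⟩, ?_⟩
    · have : {z : Fin k → ℝ≥0∞ | ∀ i : Fin k, (i : ℕ) ∈ I → z i ∈ u i} =
          ⋂ i : Fin k, {z | (i : ℕ) ∈ I → z i ∈ u i} := by ext; simp
      rw [this]
      refine isOpen_iInter_of_finite fun i => ?_
      by_cases hi : (i : ℕ) ∈ I
      · have : {z : Fin k → ℝ≥0∞ | (i : ℕ) ∈ I → z i ∈ u i} = (fun z => z i) ⁻¹' (u i) := by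
          ext; simp [hi]
        rw [this]
        exact (hu i hi).1.preimage (continuous_apply i)
      · have : {z : Fin k → ℝ≥0∞ | (i : ℕ) ∈ I → z i ∈ u i} = univ := by
          ext; simp [hi]
        rw [this]; exact isOpen_univ
    · intro y' hy'
      apply hI
      intro i hi
      exact hy' ⟨i, hk i hi⟩ hi
    · intro i hi
      exact (hu i hi).2
  rw [← hU, hmono.measure_iUnion]
  refine iSup_le fun k => ?_
  rw [hU]
  have h2 := ProbabilityMeasure.le_liminf_measure_open_of_tendsto (h1 k) (hVo k)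
  have e : ∀ ν : ProbabilityMeasure (ℕ → ℝ≥0∞),
      ((ν.map (prj_cont k).measurable.aemeasurable : ProbabilityMeasure _) : Measure _) (V k) =
      (ν : Measure (ℕ → ℝ≥0∞)) (prj k ⁻¹' V k) := fun ν =>
    Measure.map_apply (prj_cont k).measurable (hVo k).measurableSet
  simp_rw [e] at h2
  refine h2.trans (liminf_le_liminf (Eventually.of_forall fun n => measure_mono (hVG k)))

end Pool.Agent.R972.SE
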