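import Mathlib

/-!
# Measurable selections of closed valued maps, close to a given map
-/

set_option autoImplicit false

open MeasureTheory Set Filter Topology Metric
open scoped ENNReal

namespace Pool.Agent.R972.SE

/-- choose the first index of a dense sequence with a measurable property -/
lemma exists_first {E : Type*} [MeasurableSpace E] {Ω : Type*} [MeasurableSpace Ω] (x : ℕ → E) (p : Ω → ℕ → Prop)
    (hp : ∀ ω, ∃ i, p ω i) (hm : ∀ i, MeasurableSet {ω | p ω i}) :
    ∃ t : Ω → E, Measurable t ∧ ∀ ω, ∃ i, p ω i ∧ t ω = x i := by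
  classical
  refine ⟨fun ω => x (Nat.find (hp ω)), ?_, fun ω => ⟨_, Nat.find_spec (hp ω), rfl⟩⟩
  exact (measurable_from_nat (f := x)).comp (measurable_find hp hm)

lemma step {E : Type*} [PseudoEMetricSpace E] [SecondCountableTopology E] [MeasurableSpace E]
    [BorelSpace E] {Ω : Type*} [MeasurableSpace Ω] {x : ℕ → E} (hx : DenseRange x) {X : Ω → Set E}
    (hm : ∀ i, Measurable fun ω => infEDist (x i) (X ω)) {δ δ' : ℝ≥0∞} (hδ' : 0 < δ')
    {t : Ω → E} (ht : Measurable t) (htX : ∀ ω, infEDist (t ω) (X ω) < δ) :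
    ∃ t' : Ω → E, Measurable t' ∧ (∀ ω, infEDist (t' ω) (X ω) < δ') ∧
      ∀ ω, edist (t ω) (t' ω) < δ := by
  have hE : ∀ ω, ∃ i, infEDist (x i) (X ω) < δ' ∧ edist (t ω) (x i) < δ := by
    intro ω
    obtain ⟨p, hp, hpt⟩ := infEDist_lt_iff.1 (htX ω)
    have hop : IsOpen {z | edist p z < δ' ∧ edist (t ω) z < δ} :=
      (isOpen_lt (continuous_const.edist continuous_id) continuous_const).inter
        (isOpen_lt (continuous_const.edist continuous_id) continuous_const)
    obtain ⟨z, hz, i, rfl⟩ := hx.inter_open_nonempty _ hop ⟨p, by simpa using hδ', hpt⟩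
    refine ⟨i, ?_, hz.2⟩
    refine lt_of_le_of_lt (infEDist_le_edist_of_mem hp) ?_
    rw [edist_comm]; exact hz.1
  have hM : ∀ i, MeasurableSet {ω | infEDist (x i) (X ω) < δ' ∧ edist (t ω) (x i) < δ} := by
    intro i
    exact (measurableSet_lt (hm i) measurable_const).inter
      (measurableSet_lt (ht.edist measurable_const) measurable_const)
  obtain ⟨t', h1, h2⟩ := exists_first x _ hE hM
  refine ⟨t', h1, fun ω => ?_, fun ω => ?_⟩
  · obtain ⟨i, hi, he⟩ := h2 ω
    rw [he]; exact hi.1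
  · obtain ⟨i, hi, he⟩ := h2 ω
    rw [he]; exact hi.2

/-- Selections close to a given measurable map -/
theorem krn {E : Type*} [EMetricSpace E] [CompleteSpace E] [SecondCountableTopology E] [MeasurableSpace E] [BorelSpace E]
    {Ω : Type*} [MeasurableSpace Ω] {x : ℕ → E} (hx : DenseRange x) {X : Ω → Set E}
    (hc : ∀ ω, IsClosed (X ω)) (hne : ∀ ω, (X ω).Nonempty)
    (hm : ∀ i, Measurable fun ω => infEDist (x i) (X ω)) {s : Ω → E} (hs : Measurable s)
    {δ : ℝ≥0∞} (hδ : 0 < δ) (hδt : δ ≠ ∞) :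
    ∃ ξ : Ω → E, Measurable ξ ∧ (∀ ω, ξ ω ∈ X ω) ∧
      ∀ ω, (∃ j, infEDist (x j) (X ω) + edist (x j) (s ω) < δ) → edist (ξ ω) (s ω) ≤ 3 * δ := by
  -- first step
  obtain ⟨t0, h1, h2⟩ := exists_first x
    (fun ω i => infEDist (x i) (X ω) < δ ∧
      ((∃ j, infEDist (x j) (X ω) + edist (x j) (s ω) < δ) → edist (x i) (s ω) < δ)) (by
      intro ω
      by_cases h : ∃ j, infEDist (x j) (X ω) + edist (x j) (s ω) < δ
      · obtain ⟨j, hj⟩ := h
        exact ⟨j, lt_of_le_of_lt le_self_add hj, fun _ => lt_of_le_of_lt le_add_self hj⟩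
      · obtain ⟨p, hp⟩ := hne ω
        have hop : IsOpen {z | edist p z < δ} :=
          isOpen_lt (continuous_const.edist continuous_id) continuous_const
        obtain ⟨z, hz, i, rfl⟩ := hx.inter_open_nonempty _ hop ⟨p, by simpa using hδ⟩
        refine ⟨i, ?_, fun h' => absurd h' h⟩
        refine lt_of_le_of_lt (infEDist_le_edist_of_mem hp) ?_
        rw [edist_comm]; exact hz) (by
      intro i
      have hA : MeasurableSet {ω | ∃ j, infEDist (x j) (X ω) + edist (x j) (s ω) < δ} := by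
        have : {ω | ∃ j, infEDist (x j) (X ω) + edist (x j) (s ω) < δ} =
            ⋃ j, {ω | infEDist (x j) (X ω) + edist (x j) (s ω) < δ} := by ext; simp
        rw [this]
        exact MeasurableSet.iUnion fun j => measurableSet_lt
          ((hm j).add (measurable_const.edist hs)) measurable_const
      have hB : MeasurableSet {ω | edist (x i) (s ω) < δ} :=
        measurableSet_lt (measurable_const.edist hs) measurable_const
      exact (measurableSet_lt (hm i) measurable_const).inter (hA.imp hB))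
  have h0 : ∀ ω, infEDist (t0 ω) (X ω) < δ / 2 ^ 0 := by
    intro ω
    obtain ⟨i, hi, he⟩ := h2 ω
    rw [he]; simpa using hi.1
  have hstep : ∀ k : ℕ, ∀ t : {t : Ω → E // Measurable t ∧ ∀ ω, infEDist (t ω) (X ω) < δ / 2 ^ k},
      ∃ t' : {t : Ω → E // Measurable t ∧ ∀ ω, infEDist (t ω) (X ω) < δ / 2 ^ (k + 1)},
        ∀ ω, edist (t.1 ω) (t'.1 ω) < δ / 2 ^ k := by
    intro k t
    obtain ⟨t', ha, hb, hc⟩ := step hx hm (δ' := δ / 2 ^ (k + 1)) (by
      apply ENNReal.div_pos hδ.ne'; simp) t.2.1 t.2.2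
    exact ⟨⟨t', ha, hb⟩, hc⟩
  choose nxt hnxt using hstep
  let seq : (k : ℕ) → {t : Ω → E // Measurable t ∧ ∀ ω, infEDist (t ω) (X ω) < δ / 2 ^ k} :=
    fun k => Nat.rec ⟨t0, h1, h0⟩ (fun k t => nxt k t) k
  have hseq : ∀ k ω, edist ((seq k).1 ω) ((seq (k + 1)).1 ω) ≤ δ / 2 ^ k := fun k ω =>
    (hnxt k (seq k) ω).le
  have hcs : ∀ ω, CauchySeq fun k => (seq k).1 ω := fun ω =>
    cauchySeq_of_edist_le_geometric_two δ hδt fun k => hseq k ω
  choose ξ hξ using fun ω => cauchySeq_tendsto_of_complete (hcs ω)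
  refine ⟨ξ, ?_, ?_, ?_⟩
  · exact measurable_of_tendsto_metrizable (fun k => (seq k).2.1) (tendsto_pi_nhds.2 hξ)
  · intro ω
    rw [mem_iff_infEDist_zero_of_closed (hc ω)]
    have ha : Tendsto (fun k => infEDist ((seq k).1 ω) (X ω)) atTop (𝓝 (infEDist (ξ ω) (X ω))) :=
      (continuous_infEDist.tendsto _).comp (hξ ω)
    have hb : Tendsto (fun k : ℕ => δ / 2 ^ k) atTop (𝓝 0) := by
      have := ENNReal.Tendsto.const_mul (a := δ)
        (ENNReal.tendsto_pow_atTop_nhds_zero_of_lt_one (r := (2:ℝ≥0∞)⁻¹) (by simp)) (Or.inr hδt)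
      simpa [div_eq_mul_inv, ENNReal.inv_pow] using this
    refine le_antisymm (le_of_tendsto_of_tendsto ha hb ?_) zero_le
    exact Eventually.of_forall fun k => ((seq k).2.2 ω).le
  · intro ω hω
    obtain ⟨i, hi, he⟩ := h2 ω
    have ha : edist (t0 ω) (s ω) < δ := by rw [he]; exact hi.2 hω
    have hb : edist (t0 ω) (ξ ω) ≤ 2 * δ :=
      edist_le_of_edist_le_geometric_two_of_tendsto₀ δ (fun k => hseq k ω) (hξ ω)
    calc edist (ξ ω) (s ω) ≤ edist (ξ ω) (t0 ω) + edist (t0 ω) (s ω) := edist_triangle _ _ _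
      _ ≤ 2 * δ + δ := by
          rw [edist_comm (ξ ω)]
          exact add_le_add hb ha.le
      _ = 3 * δ := by ring

end Pool.Agent.R972.SE
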