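import Pool.Agent.R972.SE.Prob

/-!
# The limit probability is not monotone in the initial condition
-/

set_option autoImplicit false

open MeasureTheory ProbabilityTheory Set Filter Topology
open scoped NNReal ENNReal

namespace Pool.Agent.R972.SE

lemma fixed_iff (x : ℝ) : lam0 x = x ↔ x = 1 / 2 ∨ x = 15 / 8 ∨ x = 3 := by
  constructor
  · intro h
    rcases le_or_gt x 1 with h1 | h1
    · rw [lam0_low h1] at h; left; linarith
    rcases le_or_gt x (5 / 3) with h2 | h2
    · rw [lam0_band h1.le h2] at h; linarith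
    rcases le_or_gt x 2 with h3 | h3
    · rw [lam0_mid h2.le h3] at h; right; left; linarith
    · rw [lam0_top h3.le] at h; right; right; exact h.symm
  · rintro (rfl | rfl | rfl)
    · rw [lam0_low (by norm_num)]; norm_num
    · rw [lam0_mid (by norm_num) (by norm_num)]; norm_num
    · rw [lam0_top (by norm_num)]

lemma stable_iff (x : ℝ) : IsStable lam0 x ↔ x = 1 / 2 ∨ x = 3 := by
  constructor
  · rintro ⟨h1, h2, -⟩
    rcases (fixed_iff x).1 h1 with h | h | h
    · exact Or.inl h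
    · exfalso
      subst h
      have h3 : ∀ᶠ y in 𝓝[<] (15 / 8 : ℝ), (5 / 3 : ℝ) < y :=
        (eventually_gt_nhds (by norm_num)).filter_mono nhdsWithin_le_nhds
      obtain ⟨y, ⟨hy1, hy2⟩, hy3⟩ := ((h2.and h3).and self_mem_nhdsWithin).exists
      have hy3' : y < 15 / 8 := hy3
      rw [lam0_mid hy2.le (by linarith)] at hy1
      linarith
    · exact Or.inr h
  · rintro (rfl | rfl)
    · refine ⟨(fixed_iff _).2 (Or.inl rfl), ?_, ?_⟩
      · filter_upwards [self_mem_nhdsWithin] with y hy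
        have hy' : y < 1 / 2 := hy
        rw [lam0_low (by linarith)]; linarith
      · have h3 : ∀ᶠ y in 𝓝[>] (1 / 2 : ℝ), y < (1 : ℝ) :=
          (eventually_lt_nhds (by norm_num)).filter_mono nhdsWithin_le_nhds
        filter_upwards [self_mem_nhdsWithin, h3] with y hy hy2
        have hy' : 1 / 2 < y := hy
        rw [lam0_low (by linarith)]; linarith
    · refine ⟨(fixed_iff _).2 (Or.inr (Or.inr rfl)), ?_, ?_⟩
      · have h3 : ∀ᶠ y in 𝓝[<] (3 : ℝ), (2 : ℝ) < y :=
          (eventually_gt_nhds (by norm_num)).filter_mono nhdsWithin_le_nhds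
        filter_upwards [self_mem_nhdsWithin, h3] with y hy hy2
        have hy' : y < 3 := hy
        rw [lam0_top (by linarith)]; linarith
      · filter_upwards [self_mem_nhdsWithin] with y hy
        have hy' : 3 < y := hy
        rw [lam0_top (by linarith)]; linarith

lemma quick_low (k : ℕ) (u : ℝ) (h0 : 0 ≤ u) (h1 : u ≤ 1 / 100) :
    1 / 4 ≤ lam0 ((k + 3 / 4) / (u + 1)) := by
  have hu : 0 < u + 1 := by linarith
  rcases Nat.lt_or_ge k 1 with h | h
  · have : k = 0 := by omega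
    subst this
    have h2 : (((0 : ℕ) : ℝ) + 3 / 4) / (u + 1) ≤ 3 / 4 := by
      rw [div_le_iff₀ hu]; push_cast; linarith
    rw [lam0_low (h2.trans (by norm_num))]
    linarith
  rcases Nat.lt_or_ge k 2 with h' | h'
  · have : k = 1 := by omega
    subst this
    have h2 : (((1 : ℕ) : ℝ) + 3 / 4) / (u + 1) ≤ 7 / 4 := by
      rw [div_le_iff₀ hu]; push_cast; linarith
    have h3 : 1.73 ≤ (((1 : ℕ) : ℝ) + 3 / 4) / (u + 1) := by
      rw [le_div_iff₀ hu]; push_cast; linarith
    rw [lam0_mid (by linarith) (by linarith)]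
    linarith
  · have hk : (2 : ℝ) ≤ k := by exact_mod_cast h'
    rw [lam0_top (by rw [le_div_iff₀ hu]; linarith)]
    norm_num

lemma quick_high (k : ℕ) (u : ℝ) (h0 : 0 ≤ u) (h1 : u ≤ 1 / 100) :
    1 / 4 ≤ lam0 ((k + 2) / (u + 1)) := by
  have hu : 0 < u + 1 := by linarith
  rcases Nat.lt_or_ge k 1 with h | h
  · have : k = 0 := by omega
    subst this
    have h2 : (((0 : ℕ) : ℝ) + 2) / (u + 1) ≤ 2 := by
      rw [div_le_iff₀ hu]; push_cast; linarith
    have h3 : 1.95 ≤ (((0 : ℕ) : ℝ) + 2) / (u + 1) := by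
      rw [le_div_iff₀ hu]; push_cast; linarith
    rw [lam0_mid (by linarith) (by linarith)]
    linarith
  · have hk : (1 : ℝ) ≤ k := by exact_mod_cast h
    rw [lam0_top (by rw [le_div_iff₀ hu]; linarith)]
    norm_num

/-- **the main theorem** -/
theorem main : ∃ lam : ℝ → ℝ, ContinuousOn lam (Ici 0) ∧ (∀ x, 0 ≤ x → 0 ≤ lam x) ∧
    {x : ℝ | 0 ≤ x ∧ lam x = x}.Finite ∧
    ∃ x₁ x₂ : ℝ, 0 ≤ x₁ ∧ x₁ < x₂ ∧ (∀ x, 0 ≤ x → (IsStable lam x ↔ x = x₁ ∨ x = x₂)) ∧
      ¬ MonotoneOn (fun γ => limProb lam γ x₂) (Ici 0) ∧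
      ¬ AntitoneOn (fun γ => limProb lam γ x₂) (Ici 0) := by
  refine ⟨lam0, lam0_cont.continuousOn, fun x _ => lam0_nonneg x, ?_, 1 / 2, 3, by norm_num,
    by norm_num, fun x _ => stable_iff x, ?_, ?_⟩
  · refine Set.Finite.subset (s := {1 / 2, 15 / 8, 3}) (by simp) ?_
    rintro x ⟨-, hx⟩
    simpa using (fixed_iff x).1 hx
  · intro h
    have h1 := h (show (3 / 4 : ℝ) ∈ Ici 0 by norm_num [mem_Ici])
      (show (3 / 2 : ℝ) ∈ Ici 0 by norm_num [mem_Ici]) (by norm_num)
    simp only [limProb_zero] at h1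
    exact absurd (limProb_pos (γ := 3 / 4) (by norm_num) quick_low) (not_lt.2 h1)
  · intro h
    have h1 := h (show (3 / 2 : ℝ) ∈ Ici 0 by norm_num [mem_Ici])
      (show (2 : ℝ) ∈ Ici 0 by norm_num [mem_Ici]) (by norm_num)
    simp only [limProb_zero] at h1
    exact absurd (limProb_pos (γ := 2) (by norm_num) quick_high) (not_lt.2 h1)

end Pool.Agent.R972.SE
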