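import Pool.Agent.R972.SE.Defs

/-!
# Deterministic analysis of the jump times
-/

set_option autoImplicit false

open MeasureTheory ProbabilityTheory Set Filter Topology
open scoped NNReal ENNReal

namespace Pool.Agent.R972.SE

/-- the intensity function of the example -/
noncomputable def lam0 (x : ℝ) : ℝ := max 0 (1 - x) + max 0 (min 3 (9 * x - 15))

lemma lam0_cont : Continuous lam0 := by unfold lam0; fun_prop

lemma lam0_nonneg (x : ℝ) : 0 ≤ lam0 x := by unfold lam0; positivity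

lemma lam0_band {x : ℝ} (h1 : 1 ≤ x) (h2 : x ≤ 5 / 3) : lam0 x = 0 := by
  unfold lam0
  rw [max_eq_left (by linarith), max_eq_left (by
    exact (min_le_right _ _).trans (by linarith)), add_zero]

lemma lam0_top {x : ℝ} (h : 2 ≤ x) : lam0 x = 3 := by
  unfold lam0
  rw [max_eq_left (by linarith), min_eq_left (by linarith), max_eq_right (by norm_num), zero_add]

lemma lam0_low {x : ℝ} (h : x ≤ 1) : lam0 x = 1 - x := by
  unfold lam0
  rw [max_eq_right (by linarith), max_eq_left (by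
    exact (min_le_right _ _).trans (by linarith)), add_zero]

lemma lam0_mid {x : ℝ} (h1 : 5 / 3 ≤ x) (h2 : x ≤ 2) : lam0 x = 9 * x - 15 := by
  unfold lam0
  rw [max_eq_left (by linarith), min_eq_right (by linarith), max_eq_right (by linarith), zero_add]

lemma haz_int (n : ℕ) (γ : ℝ) {a b : ℝ} (ha : 0 ≤ a) (hb : 0 ≤ b) :
    IntervalIntegrable (fun u : ℝ => lam0 ((n + γ) / (u + 1))) volume a b := by
  refine ContinuousOn.intervalIntegrable ?_
  refine lam0_cont.comp_continuousOn ?_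
  refine ContinuousOn.div continuousOn_const (by fun_prop) ?_
  intro u hu
  have h1 : min a b ≤ u := hu.1
  have : 0 ≤ u := le_trans (le_min ha hb) h1
  positivity

/-- upper bound on the next jump time -/
lemma jump_le {γ : ℝ} {E : ℕ → ℝ} {n : ℕ} {τ c : ℝ} (hτ : 0 ≤ τ)
    (h : jump lam0 γ E n = ENNReal.ofReal τ) (hc : 0 < c) (hE : 0 ≤ E n)
    (hr : ∀ u ∈ Icc τ (τ + E n / c), c ≤ lam0 ((n + γ) / (u + 1))) :
    jump lam0 γ E (n + 1) ≤ ENNReal.ofReal (τ + E n / c) := by
  have h1 : 0 ≤ E n / c := by positivity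
  have h2 : 0 ≤ τ + E n / c := by linarith
  rw [jump]
  refine iInf₂_le_of_le (Real.toNNReal (τ + E n / c)) ⟨?_, ?_⟩ le_rfl
  · rw [h]; exact ENNReal.ofReal_le_ofReal (by linarith)
  · rw [h, ENNReal.toReal_ofReal hτ, Real.coe_toNNReal _ h2]
    have h4 : ∫ u in τ..(τ + E n / c), c ≤ ∫ u in τ..(τ + E n / c), lam0 ((n + γ) / (u + 1)) :=
      intervalIntegral.integral_mono_on (by linarith) (by simp) (haz_int n γ hτ h2) hr
    rw [intervalIntegral.integral_const, smul_eq_mul] at h4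
    have h5 : (τ + E n / c - τ) * c = E n := by field_simp; ring
    rw [h5] at h4
    exact h4

/-- the exact next jump time while the intensity is `3` -/
lemma jump_eq {γ : ℝ} {E : ℕ → ℝ} {n : ℕ} {τ : ℝ} (hτ : 0 ≤ τ)
    (h : jump lam0 γ E n = ENNReal.ofReal τ) (hE : 0 ≤ E n)
    (hr : ∀ u ∈ Icc τ (τ + E n / 3), 2 ≤ (n + γ) / (u + 1)) :
    jump lam0 γ E (n + 1) = ENNReal.ofReal (τ + E n / 3) := by
  refine le_antisymm (jump_le hτ h (by norm_num) hE fun u hu => (lam0_top (hr u hu)).ge) ?_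
  rw [jump]
  refine le_iInf₂ fun t ht => ?_
  obtain ⟨ht1, ht2⟩ := ht
  rw [h] at ht1 ht2
  rw [ENNReal.toReal_ofReal hτ] at ht2
  have ht1' : τ ≤ t := by
    rwa [ENNReal.ofReal_le_iff_le_toReal (by simp), ENNReal.coe_toReal] at ht1
  by_contra hlt
  push Not at hlt
  have h1 : (t : ℝ) < τ + E n / 3 := by
    have h2 := (ENNReal.lt_ofReal_iff_toReal_lt (by simp)).1 hlt
    simpa using h2
  have h2 : ∫ u in τ..(t : ℝ), lam0 ((n + γ) / (u + 1)) = ∫ u in τ..(t : ℝ), (3 : ℝ) := by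
    refine intervalIntegral.integral_congr fun u hu => ?_
    rw [uIcc_of_le ht1'] at hu
    exact lam0_top (hr u ⟨hu.1, by linarith [hu.2]⟩)
  rw [h2, intervalIntegral.integral_const, smul_eq_mul] at ht2
  linarith

/-- started from `3/2` the process never leaves the low region -/
lemma jump_low {E : ℕ → ℝ} (hE : ∀ n, 0 < E n) (n : ℕ) :
    ((n + 1 / 2 : ℝ≥0) : ℝ≥0∞) ≤ jump lam0 (3 / 2) E (n + 1) := by
  induction n with
  | zero =>
    rw [jump]
    refine le_iInf₂ fun t ht => ?_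
    obtain ⟨-, ht2⟩ := ht
    simp only [jump, ENNReal.toReal_zero] at ht2
    by_contra hlt
    push Not at hlt
    have h1 : (t : ℝ) < 1 / 2 := by
      have := ENNReal.coe_lt_coe.1 hlt
      have : (t : ℝ) < ((((0 : ℕ) : ℝ≥0) + 1 / 2 : ℝ≥0) : ℝ) := by exact_mod_cast this
      simpa using this
    have h2 : ∫ u in (0 : ℝ)..(t : ℝ), lam0 ((((0 : ℕ) : ℝ) + 3 / 2) / (u + 1)) =
        ∫ u in (0 : ℝ)..(t : ℝ), (0 : ℝ) := by
      refine intervalIntegral.integral_congr fun u hu => ?_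
      rw [uIcc_of_le t.coe_nonneg] at hu
      have h3 : 0 ≤ u := hu.1
      have h4 : u ≤ t := hu.2
      refine lam0_band ?_ ?_
      · rw [le_div_iff₀ (by linarith)]; push_cast; linarith
      · rw [div_le_iff₀ (by linarith)]; push_cast; linarith
    rw [h2, intervalIntegral.integral_zero] at ht2
    exact absurd (hE 0) (not_lt.2 ht2)
  | succ n ih =>
    rw [jump]
    refine le_iInf₂ fun t ht => ?_
    obtain ⟨ht1, ht2⟩ := ht
    by_contra hlt
    push Not at hlt
    have h1 : (t : ℝ) < n + 3 / 2 := by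
      have := ENNReal.coe_lt_coe.1 hlt
      have : (t : ℝ) < ((((n + 1 : ℕ) : ℝ≥0) + 1 / 2 : ℝ≥0) : ℝ) := by exact_mod_cast this
      push_cast at this
      linarith
    have hfin : jump lam0 (3 / 2) E (n + 1) ≠ ⊤ := ne_top_of_le_ne_top ENNReal.coe_ne_top ht1
    set τ := (jump lam0 (3 / 2) E (n + 1)).toReal with hτ
    have h0 : (n : ℝ) + 1 / 2 ≤ τ := by
      have := (ENNReal.toReal_le_toReal ENNReal.coe_ne_top hfin).2 ih
      rw [ENNReal.coe_toReal] at this
      push_cast at this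
      exact this
    have h0' : τ ≤ t := by
      have := (ENNReal.toReal_le_toReal hfin ENNReal.coe_ne_top).2 ht1
      simpa using this
    have hn : (0 : ℝ) ≤ n := Nat.cast_nonneg n
    have h2 : ∫ u in τ..(t : ℝ), lam0 ((((n + 1 : ℕ) : ℝ) + 3 / 2) / (u + 1)) =
        ∫ u in τ..(t : ℝ), (0 : ℝ) := by
      refine intervalIntegral.integral_congr fun u hu => ?_
      rw [uIcc_of_le h0'] at hu
      have h3 : τ ≤ u := hu.1
      have h4 : u ≤ t := hu.2
      refine lam0_band ?_ ?_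
      · rw [le_div_iff₀ (by linarith)]; push_cast; linarith
      · rw [div_le_iff₀ (by linarith)]; push_cast; linarith
    rw [h2, intervalIntegral.integral_zero] at ht2
    exact absurd (hE (n + 1)) (not_lt.2 ht2)

/-- quick jumps -/
lemma quick {γ : ℝ} (hγ : ∀ (k : ℕ) (u : ℝ), 0 ≤ u → u ≤ 1 / 100 → 1 / 4 ≤ lam0 ((k + γ) / (u + 1)))
    {E : ℕ → ℝ} (hE : ∀ n, 0 < E n) {m : ℕ} (hs : ∀ k < m, E k ≤ 1 / (400 * m)) :
    ∀ k ≤ m, ∃ τ : ℝ, 0 ≤ τ ∧ τ ≤ k / (100 * m) ∧ jump lam0 γ E k = ENNReal.ofReal τ := by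
  intro k
  induction k with
  | zero => intro _; exact ⟨0, le_rfl, by simp, by simp [jump]⟩
  | succ k ih =>
    intro hk
    obtain ⟨τ, h0, h1, h2⟩ := ih (by omega)
    have hm : (0 : ℝ) < m := by exact_mod_cast (by omega : 0 < m)
    have hk' : (k : ℝ) + 1 ≤ m := by exact_mod_cast hk
    have h3 : E k / (1 / 4) ≤ 1 / (100 * m) := by
      have := hs k (by omega)
      calc E k / (1 / 4) = 4 * E k := by ring
        _ ≤ 4 * (1 / (400 * m)) := by linarith
        _ = 1 / (100 * m) := by field_simp; norm_num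
    have h4 : (k : ℝ) / (100 * m) + 1 / (100 * m) ≤ 1 / 100 := by
      rw [← add_div, div_le_div_iff₀ (by positivity) (by norm_num)]
      linarith
    have hEk := hE k
    have h5 := jump_le h0 h2 (show (0 : ℝ) < 1 / 4 by norm_num) hEk.le fun u hu => by
      refine hγ k u (h0.trans hu.1) ?_
      linarith [hu.2]
    have hfin : jump lam0 γ E (k + 1) ≠ ⊤ := ne_top_of_le_ne_top ENNReal.ofReal_ne_top h5
    refine ⟨(jump lam0 γ E (k + 1)).toReal, ENNReal.toReal_nonneg, ?_,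
      (ENNReal.ofReal_toReal hfin).symm⟩
    have h6 : (jump lam0 γ E (k + 1)).toReal ≤ τ + E k / (1 / 4) := by
      have h7 : 0 ≤ τ + E k / (1 / 4) := by positivity
      have := (ENNReal.toReal_le_toReal hfin ENNReal.ofReal_ne_top).2 h5
      rwa [ENNReal.toReal_ofReal h7] at this
    push_cast
    rw [add_div]
    linarith

/-- the jump times on the good event -/
lemma late {γ : ℝ} (hγ0 : 0 ≤ γ)
    (hγ : ∀ (k : ℕ) (u : ℝ), 0 ≤ u → u ≤ 1 / 100 → 1 / 4 ≤ lam0 ((k + γ) / (u + 1)))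
    {E : ℕ → ℝ} (hE : ∀ n, 0 < E n) {m : ℕ} {K : ℝ} (hm : 54 + 6 * K ≤ m) (hm0 : 0 < m)
    (hs : ∀ k < m, E k ≤ 1 / (400 * m))
    (hK : ∀ n, ∑ k ∈ Finset.Ico m (m + n), E k ≤ 4 / 3 * ((m : ℝ) + n) + K) :
    ∃ τ : ℝ, 0 ≤ τ ∧ ∀ n, jump lam0 γ E (m + n) =
      ENNReal.ofReal (τ + (∑ k ∈ Finset.Ico m (m + n), E k) / 3) := by
  obtain ⟨τ, h0, h1, h2⟩ := quick hγ hE hs m le_rfl
  have hm' : (0 : ℝ) < m := by exact_mod_cast hm0
  have h1' : τ ≤ 1 / 100 := by
    refine h1.trans (le_of_eq ?_); field_simp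
  refine ⟨τ, h0, fun n => ?_⟩
  induction n with
  | zero => simpa using h2
  | succ n ih =>
    have hsum : ∑ k ∈ Finset.Ico m (m + (n + 1)), E k =
        ∑ k ∈ Finset.Ico m (m + n), E k + E (m + n) := by
      rw [← add_assoc, Finset.sum_Ico_succ_top (by omega)]
    have hnn : 0 ≤ ∑ k ∈ Finset.Ico m (m + n), E k := Finset.sum_nonneg fun k _ => (hE k).le
    have hE' := hE (m + n)
    rw [hsum, ← add_assoc m n 1]
    have h3 := jump_eq (by positivity) ih hE'.le (fun u hu => by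
      have h4 := hK (n + 1)
      rw [hsum] at h4
      push_cast at h4
      have hu0 : 0 ≤ u := le_trans (by positivity) hu.1
      rw [le_div_iff₀ (by linarith)]
      push_cast
      have hn : (0 : ℝ) ≤ n := Nat.cast_nonneg n
      have := hu.2
      linarith)
    rw [h3]
    congr 1
    ring

end Pool.Agent.R972.SE
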