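import Pool.Agent.R972.SE.Asym

/-!
# The good event has positive probability
-/

set_option autoImplicit false

open MeasureTheory ProbabilityTheory Set Filter Topology
open scoped NNReal ENNReal

namespace Pool.Agent.R972.SE

instance prob_exp : IsProbabilityMeasure (expMeasure 1) :=
  isProbabilityMeasure_expMeasure one_pos

instance prob_clock : IsProbabilityMeasure clockLaw := by unfold clockLaw; infer_instance

lemma exp_Iic {x : ℝ} (hx : 0 ≤ x) : (expMeasure 1).real (Iic x) = 1 - Real.exp (-x) := by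
  rw [← cdf_eq_real, cdf_expMeasure_eq one_pos, if_pos hx, one_mul]

lemma exp_pos_ae : ∀ᵐ x ∂(expMeasure 1), 0 < x := by
  have h1 : (expMeasure 1).real (Iic 0) = 0 := by rw [exp_Iic le_rfl]; simp
  have h2 : expMeasure 1 (Iic 0) = 0 := by
    rwa [measureReal_def, ENNReal.toReal_eq_zero_iff, or_iff_left (measure_ne_top _ _)] at h1
  have h3 : ∀ᵐ x ∂(expMeasure 1), x ∉ Iic 0 := measure_eq_zero_iff_ae_notMem.1 h2
  filter_upwards [h3] with x hx
  exact not_le.1 hx

lemma exp_Iic_pos {x : ℝ} (hx : 0 < x) : 0 < expMeasure 1 (Iic x) := by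
  have h1 : 0 < (expMeasure 1).real (Iic x) := by
    rw [exp_Iic hx.le]
    have h2 := Real.exp_lt_exp.2 (show -x < 0 by linarith)
    rw [Real.exp_zero] at h2
    linarith
  exact (ENNReal.toReal_pos_iff.1 h1).1

lemma exp_lint : ∫⁻ x, ENNReal.ofReal x ∂(expMeasure 1) = 1 := by
  have h1 : expMeasure 1 = volume.withDensity (exponentialPDF 1) := rfl
  have hm : Measurable (exponentialPDF 1) := (measurable_exponentialPDFReal 1).ennreal_ofReal
  rw [h1, lintegral_withDensity_eq_lintegral_mul _ hm (by fun_prop)]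
  have h2 : ∀ x : ℝ, (exponentialPDF 1 * fun x => ENNReal.ofReal x) x = gammaPDF 2 1 x := by
    intro x
    rw [Pi.mul_apply]
    rcases lt_or_ge x 0 with hx | hx
    · rw [exponentialPDF_of_neg hx, gammaPDF_of_neg hx, zero_mul]
    · rw [exponentialPDF_of_nonneg hx, gammaPDF_of_nonneg hx, ← ENNReal.ofReal_mul (by positivity)]
      congr 1
      have e1 : Real.Gamma 2 = 1 := Real.Gamma_two
      rw [e1, show (2 : ℝ) - 1 = 1 by norm_num, Real.rpow_one]
      simp
      ring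
  rw [lintegral_congr h2]
  exact lintegral_gammaPDF_eq_one (by norm_num) (by norm_num)

lemma exp_integrable : Integrable (fun x : ℝ => x) (expMeasure 1) := by
  refine ⟨by fun_prop, ?_⟩
  have h1 : ∫⁻ x, ‖x‖ₑ ∂(expMeasure 1) = ∫⁻ x, ENNReal.ofReal x ∂(expMeasure 1) := by
    refine lintegral_congr_ae ?_
    filter_upwards [exp_pos_ae] with x hx
    rw [Real.enorm_eq_ofReal hx.le]
  show ∫⁻ x, ‖x‖ₑ ∂(expMeasure 1) < ⊤
  rw [h1, exp_lint]
  exact ENNReal.one_lt_top

lemma exp_mean : ∫ x, x ∂(expMeasure 1) = 1 := by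
  rw [integral_eq_lintegral_of_nonneg_ae (exp_pos_ae.mono fun x hx => hx.le) (by fun_prop),
    exp_lint]
  simp

lemma mp (k : ℕ) : MeasurePreserving (fun E : ℕ → ℝ => E k) clockLaw (expMeasure 1) :=
  measurePreserving_eval_infinitePi (fun _ : ℕ => expMeasure 1) k

lemma ae_pos : ∀ᵐ E ∂clockLaw, ∀ k, 0 < E k := by
  rw [ae_all_iff]
  intro k
  exact (mp k).quasiMeasurePreserving.ae exp_pos_ae

lemma iind : iIndepFun (fun (k : ℕ) (E : ℕ → ℝ) => E k) clockLaw :=
  iIndepFun_infinitePi (P := fun _ : ℕ => expMeasure 1) (X := fun (_ : ℕ) (x : ℝ) => x)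
    (fun _ => measurable_id)

lemma slln : ∀ᵐ E ∂clockLaw, Tendsto (fun n : ℕ => (∑ k ∈ Finset.range n, E k) / (n : ℝ)) atTop
    (𝓝 (1 : ℝ)) := by
  have h := strong_law_ae_real (μ := clockLaw) (fun (k : ℕ) (E : ℕ → ℝ) => E k)
    ((mp 0).integrable_comp_of_integrable exp_integrable)
    (fun i j hij => iind.indepFun hij)
    (fun i => ⟨(mp i).measurable.aemeasurable, (mp 0).measurable.aemeasurable, by
      rw [(mp i).map_eq, (mp 0).map_eq]⟩)
  have h2 : ∫ E, E 0 ∂clockLaw = 1 := by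
    have := integral_map (μ := clockLaw) (φ := fun E : ℕ → ℝ => E 0) (f := fun x : ℝ => x)
      (mp 0).measurable.aemeasurable (by fun_prop)
    rw [(mp 0).map_eq, exp_mean] at this
    exact this.symm
  rw [h2] at h
  exact h

/-- linear growth with a random constant -/
lemma exists_K {E : ℕ → ℝ} (h : Tendsto (fun n : ℕ => (∑ k ∈ Finset.range n, E k) / n) atTop
    (𝓝 1)) : ∃ K : ℕ, ∀ n : ℕ, ∑ k ∈ Finset.range n, E k ≤ 4 / 3 * (n : ℝ) + K := by
  have h1 := h.eventually_lt_const (show (1 : ℝ) < 4 / 3 by norm_num)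
  obtain ⟨n0, hn0⟩ := eventually_atTop.1 h1
  obtain ⟨K, hK⟩ := exists_nat_ge (∑ n ∈ Finset.range (n0 + 1), |∑ k ∈ Finset.range n, E k|)
  refine ⟨K, fun n => ?_⟩
  have hn : (0 : ℝ) ≤ n := Nat.cast_nonneg n
  have hK0 : (0 : ℝ) ≤ K := Nat.cast_nonneg K
  rcases le_or_gt n n0 with h2 | h2
  · have h3 : |∑ k ∈ Finset.range n, E k| ≤ K := by
      refine le_trans ?_ hK
      exact Finset.single_le_sum (f := fun n => |∑ k ∈ Finset.range n, E k|)
        (fun i _ => abs_nonneg _) (Finset.mem_range.2 (by omega))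
    have := le_abs_self (∑ k ∈ Finset.range n, E k)
    linarith
  · have h3 := hn0 n h2.le
    have hn' : (0 : ℝ) < n := by exact_mod_cast (by omega : 0 < n)
    rw [div_lt_iff₀ hn'] at h3
    linarith

/-- the event `C` -/
def evC (m : ℕ) (K : ℝ) : Set (ℕ → ℝ) :=
  {E | ∀ n, ∑ k ∈ Finset.Ico m (m + n), E k ≤ 4 / 3 * ((m : ℝ) + n) + K}

/-- the event `A` -/
def evA (m : ℕ) : Set (ℕ → ℝ) := {E | ∀ k < m, E k ≤ 1 / (400 * m)}

lemma evA_pos {m : ℕ} (hm : 0 < m) : 0 < clockLaw (evA m) := by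
  have hm' : (0 : ℝ) < m := by exact_mod_cast hm
  have h1 : evA m = Set.pi (Finset.range m : Finset ℕ) (fun _ => Iic (1 / (400 * (m : ℝ)))) := by
    ext E
    simp [evA]
  rw [h1, clockLaw, Measure.infinitePi_pi _ (fun _ _ => measurableSet_Iic)]
  refine pos_iff_ne_zero.2 (Finset.prod_ne_zero_iff.2 fun i _ => ?_)
  exact (exp_Iic_pos (by positivity)).ne'

lemma ev_indep (m : ℕ) (K : ℝ) : clockLaw (evA m ∩ evC m K) = clockLaw (evA m) * clockLaw (evC m K) := by
  have hind : iIndep (fun k : ℕ => MeasurableSpace.comap (fun E : ℕ → ℝ => E k) inferInstance)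
      clockLaw := iind
  have h := indep_iSup_of_disjoint (fun i => (measurable_pi_apply i).comap_le) hind
    (S := {k | k < m}) (T := {k | m ≤ k}) (by
      rw [Set.disjoint_left]
      intro k h1 h2
      exact absurd (show m ≤ k from h2) (not_le.2 (show k < m from h1)))
  refine (Indep_iff _ _ _).1 h _ _ ?_ ?_
  · have h1 : evA m = ⋂ (k : ℕ) (_ : k < m), {E : ℕ → ℝ | E k ≤ 1 / (400 * m)} := by
      ext E; simp [evA]
    rw [h1]
    refine MeasurableSet.iInter fun k => MeasurableSet.iInter fun hk => ?_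
    have hle : MeasurableSpace.comap (fun E : ℕ → ℝ => E k) inferInstance ≤
        ⨆ i ∈ {k | k < m}, MeasurableSpace.comap (fun E : ℕ → ℝ => E i) inferInstance :=
      le_iSup₂ (f := fun i (_ : i ∈ {k | k < m}) =>
        MeasurableSpace.comap (fun E : ℕ → ℝ => E i) inferInstance) k hk
    refine hle _ ?_
    exact ⟨Iic (1 / (400 * (m : ℝ))), measurableSet_Iic, rfl⟩
  · have h1 : evC m K = ⋂ (n : ℕ), {E : ℕ → ℝ |
        ∑ k ∈ Finset.Ico m (m + n), E k ≤ 4 / 3 * ((m : ℝ) + n) + K} := by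
      ext E; simp [evC]
    rw [h1]
    refine MeasurableSet.iInter fun n => ?_
    have hf : @Measurable _ _ (⨆ i ∈ {k | m ≤ k}, MeasurableSpace.comap
        (fun E : ℕ → ℝ => E i) inferInstance) _
        (fun E : ℕ → ℝ => ∑ k ∈ Finset.Ico m (m + n), E k) := by
      refine @Finset.measurable_sum _ _ _ _ _ _ (_) _ _ fun k hk => ?_
      have hk' : m ≤ k := (Finset.mem_Ico.1 hk).1
      exact Measurable.of_comap_le (le_iSup₂ (f := fun i (_ : i ∈ {k | m ≤ k}) =>
        MeasurableSpace.comap (fun E : ℕ → ℝ => E i) inferInstance) k hk')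
    exact hf measurableSet_Iic

/-- positive probability of convergence to `3` -/
theorem limProb_pos {γ : ℝ} (hγ0 : 0 ≤ γ)
    (hγ : ∀ (k : ℕ) (u : ℝ), 0 ≤ u → u ≤ 1 / 100 → 1 / 4 ≤ lam0 ((k + γ) / (u + 1))) :
    0 < limProb lam0 γ 3 := by
  -- a good constant `K`
  set F : Set (ℕ → ℝ) := {E | (∀ k, 0 < E k) ∧
    Tendsto (fun n : ℕ => (∑ k ∈ Finset.range n, E k) / n) atTop (𝓝 1)} with hF
  have hFae : ∀ᵐ E ∂clockLaw, E ∈ F := by
    filter_upwards [ae_pos, slln] with E h1 h2 using ⟨h1, h2⟩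
  have hK : ∃ K : ℕ, 0 < clockLaw (F ∩ {E | ∀ n : ℕ, ∑ k ∈ Finset.range n, E k ≤
      4 / 3 * (n : ℝ) + K}) := by
    by_contra hcon
    push Not at hcon
    have h1 : clockLaw (⋃ K : ℕ, (F ∩ {E | ∀ n : ℕ, ∑ k ∈ Finset.range n, E k ≤
      4 / 3 * (n : ℝ) + K})) = 0 := measure_iUnion_null fun K => le_antisymm (hcon K) zero_le
    have h2 : F ⊆ ⋃ K : ℕ, (F ∩ {E | ∀ n : ℕ, ∑ k ∈ Finset.range n, E k ≤
      4 / 3 * (n : ℝ) + K}) := by
      intro E hE
      obtain ⟨K, hK⟩ := exists_K hE.2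
      exact mem_iUnion.2 ⟨K, hE, hK⟩
    have h3 : clockLaw F = 0 := measure_mono_null h2 h1
    have h4 : clockLaw Fᶜ = 0 := hFae
    have h5 : clockLaw univ ≤ clockLaw F + clockLaw Fᶜ := by
      rw [← union_compl_self F]; exact measure_union_le _ _
    rw [h3, h4, measure_univ, add_zero] at h5
    exact absurd h5 (by simp)
  obtain ⟨K, hK⟩ := hK
  set m : ℕ := 54 + 6 * K with hm
  have hm0 : 0 < m := by omega
  have hC : 0 < clockLaw (evC m K) := by
    refine lt_of_lt_of_le hK (measure_mono ?_)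
    rintro E ⟨hE, hE2⟩ n
    have h1 := hE2 (m + n)
    have h2 : ∑ k ∈ Finset.Ico m (m + n), E k ≤ ∑ k ∈ Finset.range (m + n), E k := by
      rw [Finset.range_eq_Ico]
      exact Finset.sum_le_sum_of_subset_of_nonneg (Finset.Ico_subset_Ico_left (by omega))
        fun i _ _ => (hE.1 i).le
    push_cast at h1
    exact h2.trans h1
  have hAC : 0 < clockLaw (evA m ∩ evC m K) := by
    rw [ev_indep]
    exact ENNReal.mul_pos (evA_pos hm0).ne' hC.ne'
  have h2 : clockLaw (evA m ∩ evC m K) = clockLaw ((evA m ∩ evC m K) ∩ F) :=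
    (measure_inter_conull hFae).symm
  rw [h2] at hAC
  refine lt_of_lt_of_le hAC (measure_mono ?_)
  rintro E ⟨⟨hA, hCE⟩, hE⟩
  exact good hγ0 hγ hE.1 (K := K) (by rw [hm]; push_cast; linarith) hm0 hA hCE hE.2

/-- started from `3/2` the process does not converge to `3` -/
theorem limProb_zero : limProb lam0 (3 / 2) 3 = 0 := by
  unfold limProb
  refine measure_mono_null (t := {E | ¬ ∀ k, 0 < E k}) ?_ ae_pos
  rintro E ⟨h1, h2⟩ hE
  -- the count is at most `t + 1`
  have hcount : ∀ t : ℝ≥0, ((count lam0 (3 / 2) E t).toNat : ℝ) ≤ t + 1 := by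
    intro t
    have h3 : {n : ℕ | jump lam0 (3 / 2) E (n + 1) ≤ t} ⊆
        ((Finset.range (⌊(t : ℝ) + 1⌋₊) : Finset ℕ) : Set ℕ) := by
      intro n hn
      have h4 : ((n + 1 / 2 : ℝ≥0) : ℝ≥0∞) ≤ t := (jump_low hE n).trans hn
      have h5 : (n : ℝ≥0) + 1 / 2 ≤ t := ENNReal.coe_le_coe.1 h4
      have h6 : (n : ℝ) + 1 / 2 ≤ t := by exact_mod_cast h5
      simp only [Finset.coe_range, mem_Iio]
      rw [Nat.lt_iff_add_one_le, Nat.le_floor_iff (by positivity)]
      push_cast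
      linarith
    have h4 : count lam0 (3 / 2) E t ≤ (⌊(t : ℝ) + 1⌋₊ : ℕ) := by
      unfold count
      refine (encard_le_encard h3).trans ?_
      rw [encard_coe_eq_coe_finsetCard, Finset.card_range]
    have h5 : (count lam0 (3 / 2) E t).toNat ≤ ⌊(t : ℝ) + 1⌋₊ := by
      have := ENat.toNat_le_toNat h4 (ENat.natCast_ne_top _)
      simpa using this
    calc ((count lam0 (3 / 2) E t).toNat : ℝ) ≤ (⌊(t : ℝ) + 1⌋₊ : ℝ) := by exact_mod_cast h5
      _ ≤ t + 1 := Nat.floor_le (by positivity)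
  have h3 : ∀ᶠ t : ℝ≥0 in atTop, (2 : ℝ) < ((count lam0 (3 / 2) E t).toNat : ℝ) / t :=
    h2.eventually_const_lt (by norm_num)
  obtain ⟨t, ht, ht1⟩ := (h3.and (eventually_ge_atTop (1 : ℝ≥0))).exists
  have ht1' : (1 : ℝ) ≤ t := by exact_mod_cast ht1
  rw [lt_div_iff₀ (by linarith)] at ht
  have := hcount t
  linarith

end Pool.Agent.R972.SE
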